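import Mathlib

/-!
Helper file for MP_91e459 (Erdős inequalities for sums of consecutive `n`-th powers).
-/

set_option autoImplicit false

namespace Pool.Agent.TH845.EP

open Finset Filter Topology

/-! ### Power series sums -/

lemma part0 (N : ℕ) : ∑ l ∈ range N, (l : ℝ) ^ 0 / 2 ^ l = 2 - 2 * ((N : ℝ) ^ 0 / 2 ^ N) := by
  induction N with
  | zero => norm_num
  | succ N ih =>
    rw [sum_range_succ, ih]
    push_cast
    field_simp
    ring

lemma part1 (N : ℕ) : ∑ l ∈ range N, (l : ℝ) ^ 1 / 2 ^ l =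
    2 - (2 * ((N : ℝ) ^ 1 / 2 ^ N) + 2 * ((N : ℝ) ^ 0 / 2 ^ N)) := by
  induction N with
  | zero => norm_num
  | succ N ih =>
    rw [sum_range_succ, ih]
    push_cast
    field_simp
    ring

lemma part2 (N : ℕ) : ∑ l ∈ range N, (l : ℝ) ^ 2 / 2 ^ l =
    6 - (2 * ((N : ℝ) ^ 2 / 2 ^ N) + 4 * ((N : ℝ) ^ 1 / 2 ^ N) + 6 * ((N : ℝ) ^ 0 / 2 ^ N)) := by
  induction N with
  | zero => norm_num
  | succ N ih =>
    rw [sum_range_succ, ih]
    push_cast
    field_simp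
    ring

lemma part3 (N : ℕ) : ∑ l ∈ range N, (l : ℝ) ^ 3 / 2 ^ l =
    26 - (2 * ((N : ℝ) ^ 3 / 2 ^ N) + 6 * ((N : ℝ) ^ 2 / 2 ^ N) + 18 * ((N : ℝ) ^ 1 / 2 ^ N)
      + 26 * ((N : ℝ) ^ 0 / 2 ^ N)) := by
  induction N with
  | zero => norm_num
  | succ N ih =>
    rw [sum_range_succ, ih]
    push_cast
    field_simp
    ring

lemma part4 (N : ℕ) : ∑ l ∈ range N, (l : ℝ) ^ 4 / 2 ^ l =
    150 - (2 * ((N : ℝ) ^ 4 / 2 ^ N) + 8 * ((N : ℝ) ^ 3 / 2 ^ N) + 36 * ((N : ℝ) ^ 2 / 2 ^ N)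
      + 104 * ((N : ℝ) ^ 1 / 2 ^ N) + 150 * ((N : ℝ) ^ 0 / 2 ^ N)) := by
  induction N with
  | zero => norm_num
  | succ N ih =>
    rw [sum_range_succ, ih]
    push_cast
    field_simp
    ring

lemma part6 (N : ℕ) : ∑ l ∈ range N, (l : ℝ) ^ 6 / 2 ^ l =
    9366 - (2 * ((N : ℝ) ^ 6 / 2 ^ N) + 12 * ((N : ℝ) ^ 5 / 2 ^ N) + 90 * ((N : ℝ) ^ 4 / 2 ^ N)
      + 520 * ((N : ℝ) ^ 3 / 2 ^ N) + 2250 * ((N : ℝ) ^ 2 / 2 ^ N)
      + 6492 * ((N : ℝ) ^ 1 / 2 ^ N) + 9366 * ((N : ℝ) ^ 0 / 2 ^ N)) := by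
  induction N with
  | zero => norm_num
  | succ N ih =>
    rw [sum_range_succ, ih]
    push_cast
    field_simp
    ring

lemma tz (k : ℕ) : Tendsto (fun N : ℕ => (N : ℝ) ^ k / 2 ^ N) atTop (𝓝 0) :=
  tendsto_pow_const_div_const_pow_of_one_lt k (by norm_num)

lemma hs_of (k : ℕ) (c : ℝ) (g : ℕ → ℝ) (hg : Tendsto g atTop (𝓝 0))
    (h : ∀ N : ℕ, ∑ l ∈ range N, (l : ℝ) ^ k / 2 ^ l = c - g N) :
    HasSum (fun l : ℕ => (l : ℝ) ^ k / 2 ^ l) c := by
  rw [hasSum_iff_tendsto_nat_of_nonneg (fun i => by positivity)]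
  simp_rw [h]
  simpa using (tendsto_const_nhds (x := c)).sub hg

lemma hs0 : HasSum (fun l : ℕ => (l : ℝ) ^ 0 / 2 ^ l) 2 :=
  hs_of 0 2 _ (by simpa using (tz 0).const_mul 2) part0

lemma hs1 : HasSum (fun l : ℕ => (l : ℝ) ^ 1 / 2 ^ l) 2 :=
  hs_of 1 2 _ (by
    have h1 := ((tz 1).const_mul 2).add ((tz 0).const_mul 2)
    simpa using h1) part1

lemma hs2 : HasSum (fun l : ℕ => (l : ℝ) ^ 2 / 2 ^ l) 6 :=
  hs_of 2 6 _ (by
    have h1 := ((tz 2).const_mul 2).add ((tz 1).const_mul 4)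
    have h2 := h1.add ((tz 0).const_mul 6)
    simpa using h2) part2

lemma hs3 : HasSum (fun l : ℕ => (l : ℝ) ^ 3 / 2 ^ l) 26 :=
  hs_of 3 26 _ (by
    have h1 := ((tz 3).const_mul 2).add ((tz 2).const_mul 6)
    have h2 := (h1.add ((tz 1).const_mul 18)).add ((tz 0).const_mul 26)
    simpa using h2) part3

lemma hs4 : HasSum (fun l : ℕ => (l : ℝ) ^ 4 / 2 ^ l) 150 :=
  hs_of 4 150 _ (by
    have h1 := ((tz 4).const_mul 2).add ((tz 3).const_mul 8)
    have h2 := (h1.add ((tz 2).const_mul 36)).add ((tz 1).const_mul 104)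
    have h3 := h2.add ((tz 0).const_mul 150)
    simpa using h3) part4

lemma hs6 : HasSum (fun l : ℕ => (l : ℝ) ^ 6 / 2 ^ l) 9366 :=
  hs_of 6 9366 _ (by
    have h1 := ((tz 6).const_mul 2).add ((tz 5).const_mul 12)
    have h2 := (h1.add ((tz 4).const_mul 90)).add ((tz 3).const_mul 520)
    have h3 := (h2.add ((tz 2).const_mul 2250)).add ((tz 1).const_mul 6492)
    have h4 := h3.add ((tz 0).const_mul 9366)
    simpa using h4) part6

/-! ### Elementary bounds -/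

lemma exp_neg_le (z : ℝ) (hz : 0 ≤ z) : Real.exp (-z) ≤ 1 - z + z ^ 2 / 2 := by
  have h1 := Real.sum_le_exp_of_nonneg hz 4
  simp only [sum_range_succ, range_zero, sum_empty, Nat.factorial] at h1
  norm_num at h1
  rw [Real.exp_neg]
  have hp : 0 < Real.exp z := Real.exp_pos z
  rw [inv_le_comm₀ hp (by nlinarith [sq_nonneg (z - 1)])]
  rw [inv_le_iff_one_le_mul₀ (by nlinarith [sq_nonneg (z - 1)])]
  have h2 : 0 < 1 - z + z ^ 2 / 2 := by nlinarith [sq_nonneg (z - 1)]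
  calc (1 : ℝ) ≤ (1 + z + z ^ 2 / 2 + z ^ 3 / 6) * (1 - z + z ^ 2 / 2) := by
        have : (1 + z + z ^ 2 / 2 + z ^ 3 / 6) * (1 - z + z ^ 2 / 2) =
          1 + z ^ 3 / 6 + z ^ 4 / 12 + z ^ 5 / 12 := by ring
        rw [this]
        have : 0 ≤ z ^ 3 / 6 + z ^ 4 / 12 + z ^ 5 / 12 := by positivity
        linarith
    _ ≤ Real.exp z * (1 - z + z ^ 2 / 2) := by
        apply mul_le_mul_of_nonneg_right _ h2.le
        linarith

lemma exp_neg_ge (z : ℝ) (hz : 0 ≤ z) :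
    1 - z + z ^ 2 / 2 - z ^ 3 / 6 ≤ Real.exp (-z) := by
  have key : MonotoneOn (fun z : ℝ => Real.exp (-z) - (1 - z + z ^ 2 / 2 - z ^ 3 / 6))
      (Set.Ici 0) := by
    have hd : ∀ x : ℝ, HasDerivAt (fun z : ℝ => Real.exp (-z) - (1 - z + z ^ 2 / 2 - z ^ 3 / 6))
        (-Real.exp (-x) - (-1 + x - x ^ 2 / 2)) x := by
      intro x
      have h1 : HasDerivAt (fun z : ℝ => Real.exp (-z)) (-Real.exp (-x)) x := by
        have := (hasDerivAt_neg x).exp
        simpa using this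
      have h2 : HasDerivAt (fun z : ℝ => 1 - z + z ^ 2 / 2 - z ^ 3 / 6)
          (-1 + x - x ^ 2 / 2) x := by
        have a1 := (hasDerivAt_id' x)
        have a2 := (hasDerivAt_pow 2 x).div_const 2
        have a3 := (hasDerivAt_pow 3 x).div_const 6
        have := (((hasDerivAt_const x (1 : ℝ)).sub a1).add a2).sub a3
        refine this.congr_deriv ?_
        norm_num
        ring
      exact h1.sub h2
    refine monotoneOn_of_deriv_nonneg (convex_Ici 0)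
      (fun x _ => (hd x).continuousAt.continuousWithinAt)
      (fun x _ => (hd x).differentiableAt.differentiableWithinAt) ?_
    intro x hx
    rw [interior_Ici] at hx
    rw [(hd x).deriv]
    have := exp_neg_le x (le_of_lt hx)
    linarith
  have := key (Set.mem_Ici.2 le_rfl) (Set.mem_Ici.2 hz) hz
  simp only [neg_zero, Real.exp_zero] at this
  norm_num at this
  linarith

lemma log_up (y : ℝ) (h0 : 0 ≤ y) (h1 : y ≤ 1 / 8) :
    -Real.log (1 - y) ≤ y + y ^ 2 / 2 + y ^ 3 / 3 + 3 / 10 * y ^ 4 := by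
  have h := Real.abs_log_sub_add_sum_range_le (x := y) (by rw [abs_of_nonneg h0]; linarith) 5
  rw [abs_of_nonneg h0] at h
  have h2 := (abs_le.1 h).1
  simp only [sum_range_succ, range_zero, sum_empty] at h2
  norm_num at h2
  have h3 : y ^ 6 / (1 - y) ≤ y ^ 4 * (1 / 56) := by
    rw [div_le_iff₀ (by linarith)]
    have h4 : 0 ≤ y ^ 4 := by positivity
    have h5 : y ^ 2 ≤ 1 / 64 := by nlinarith
    have h6 : y ^ 6 = y ^ 4 * y ^ 2 := by ring
    rw [h6]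
    nlinarith [mul_nonneg h4 (sub_nonneg.2 h5), mul_nonneg h4 (sub_nonneg.2 h1)]
  have h7 : y ^ 5 ≤ y ^ 4 * (1 / 8) := by
    have h4 : 0 ≤ y ^ 4 := by positivity
    have h6 : y ^ 5 = y ^ 4 * y := by ring
    rw [h6]
    exact mul_le_mul_of_nonneg_left h1 h4
  have h8 : 0 ≤ y ^ 4 := by positivity
  linarith

lemma log_lo (y : ℝ) (h0 : 0 ≤ y) (h1 : y < 1) :
    y + y ^ 2 / 2 + y ^ 3 / 3 ≤ -Real.log (1 - y) := by
  have h := Real.hasSum_pow_div_log_of_abs_lt_one (x := y) (by rw [abs_of_nonneg h0]; linarith)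
  have := sum_le_hasSum (range 3) (fun i _ => by positivity) h
  simp only [sum_range_succ, range_zero, sum_empty] at this
  norm_num at this
  linarith

lemma log1p_up (a : ℝ) (h0 : 0 ≤ a) (h1 : a ≤ 1 / 8) :
    Real.log (1 + a) ≤ a - a ^ 2 / 2 + a ^ 3 / 3 + 8 / 7 * a ^ 4 := by
  have h := Real.abs_log_sub_add_sum_range_le (x := -a)
    (by rw [abs_neg, abs_of_nonneg h0]; linarith) 3
  rw [abs_neg, abs_of_nonneg h0] at h
  have h2 := (abs_le.1 h).2
  simp only [sum_range_succ, range_zero, sum_empty] at h2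
  norm_num at h2
  have h3 : a ^ 4 / (1 - a) ≤ 8 / 7 * a ^ 4 := by
    rw [div_le_iff₀ (by linarith)]
    have h4 : 0 ≤ a ^ 4 := by positivity
    nlinarith [mul_nonneg h4 (sub_nonneg.2 h1)]
  have e3 : (-a) ^ 3 = -a ^ 3 := by ring
  rw [e3] at h2
  linarith

end Pool.Agent.TH845.EP
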