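import Mathlib
import Pool.Agent.TH845.ErdosPow

set_option autoImplicit false

namespace Pool.Agent.TH845.EP

open Finset Filter Topology

lemma L_lo : (0.693147 : ℝ) < Real.log 2 := by
  have := Real.log_two_gt_d9; linarith
lemma L_hi : Real.log 2 < (0.693148 : ℝ) := by
  have := Real.log_two_lt_d9; linarith

/-- bound for `n a` -/
lemma na_le (n : ℕ) (a : ℝ) (h0 : 0 < a) (h1 : a ≤ 1 / 8) (h : 1 / 2 < (1 - a) ^ n) :
    n * a ≤ Real.log 2 * (1 - a / 2 - a ^ 2 / 12 + 5 / 24 * a ^ 3) := by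
  have hb : 0 < 1 - a := by linarith
  have h2 : n * (-Real.log (1 - a)) < Real.log 2 := by
    have := Real.log_lt_log (by norm_num) h
    rw [Real.log_pow, one_div, Real.log_inv] at this
    linarith
  have h3 := log_lo a h0.le (by linarith)
  have hn : (0 : ℝ) ≤ n := Nat.cast_nonneg n
  have h4 : n * a * (1 + a / 2 + a ^ 2 / 3) ≤ Real.log 2 := by
    have : (n : ℝ) * (a + a ^ 2 / 2 + a ^ 3 / 3) ≤ n * (-Real.log (1 - a)) :=
      mul_le_mul_of_nonneg_left h3 hn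
    nlinarith
  set w := 1 - a / 2 - a ^ 2 / 12 + 5 / 24 * a ^ 3 with hw
  have hw0 : 0 < w := by
    rw [hw]; nlinarith [pow_pos h0 3, pow_pos h0 2]
  have h5 : 1 ≤ (1 + a / 2 + a ^ 2 / 3) * w := by
    have : (1 + a / 2 + a ^ 2 / 3) * w = 1 + 11 / 144 * a ^ 4 + 5 / 72 * a ^ 5 := by
      rw [hw]; ring
    rw [this]
    have : 0 ≤ 11 / 144 * a ^ 4 + 5 / 72 * a ^ 5 := by positivity
    linarith
  have hna : 0 ≤ (n : ℝ) * a := by positivity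
  calc (n : ℝ) * a = n * a * 1 := by ring
    _ ≤ n * a * ((1 + a / 2 + a ^ 2 / 3) * w) := mul_le_mul_of_nonneg_left h5 hna
    _ = (n * a * (1 + a / 2 + a ^ 2 / 3)) * w := by ring
    _ ≤ Real.log 2 * w := mul_le_mul_of_nonneg_right h4 hw0.le

/-- the polynomial correction -/
noncomputable def D (a x : ℝ) : ℝ :=
  x * (x - 1) * a / 2 + x * (x - 1) * (4 * x + 1) * a ^ 2 / 12 + 3 / 10 * x ^ 4 * a ^ 3

lemma wD (a x : ℝ) (h0 : 0 < a) (h1 : a ≤ 1 / 8) (hx : x = 0 ∨ 1 ≤ x) :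
    (1 - a / 2 - a ^ 2 / 12 + 5 / 24 * a ^ 3) *
      (x + x ^ 2 * a / 2 + x ^ 3 * a ^ 2 / 3 + 3 / 10 * x ^ 4 * a ^ 3) ≤ x + D a x := by
  rcases hx with rfl | hx
  · simp [D]
  have key : x + D a x - (1 - a / 2 - a ^ 2 / 12 + 5 / 24 * a ^ 3) *
      (x + x ^ 2 * a / 2 + x ^ 3 * a ^ 2 / 3 + 3 / 10 * x ^ 4 * a ^ 3) =
      a ^ 3 * (x * (x - 1) * (4 * x + 5) / 24) +
      a ^ 4 * (3 / 20 * x ^ 4 + x ^ 3 / 36 - 5 / 48 * x ^ 2 + a * (x ^ 4 / 40 - 5 / 72 * x ^ 3)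
        - a ^ 2 * (x ^ 4 / 16)) := by
    unfold D; ring
  have hx0 : 0 ≤ x := by linarith
  have e1 : 0 ≤ a ^ 3 * (x * (x - 1) * (4 * x + 5) / 24) := by
    have : 0 ≤ x * (x - 1) * (4 * x + 5) := by
      apply mul_nonneg (mul_nonneg hx0 (by linarith)) (by linarith)
    positivity
  have e2 : 0 ≤ 3 / 20 * x ^ 4 + x ^ 3 / 36 - 5 / 48 * x ^ 2 + a * (x ^ 4 / 40 - 5 / 72 * x ^ 3)
        - a ^ 2 * (x ^ 4 / 16) := by
    have hx2 : 1 ≤ x ^ 2 := by nlinarith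
    have hx24 : x ^ 2 ≤ x ^ 4 := by nlinarith [sq_nonneg x]
    have ha2 : a ^ 2 ≤ 1 / 64 := by nlinarith
    have h3 : a ^ 2 * (x ^ 4 / 16) ≤ 1 / 64 * (x ^ 4 / 16) :=
      mul_le_mul_of_nonneg_right ha2 (by positivity)
    have h4 : a * (5 / 72 * x ^ 3) ≤ 1 / 8 * (5 / 72 * x ^ 3) :=
      mul_le_mul_of_nonneg_right h1 (by positivity)
    have h5 : 0 ≤ a * (x ^ 4 / 40) := by positivity
    have h6 : 0 ≤ x ^ 3 := by positivity
    have h7 : 0 ≤ x ^ 4 := by positivity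
    nlinarith
  have e3 := mul_nonneg (pow_nonneg h0.le 4) e2
  linarith

/-- the polynomial lower bound -/
noncomputable def P (a x : ℝ) : ℝ :=
  1 - Real.log 2 * D a x + (Real.log 2) ^ 2 * (x * (x - 1) * a / 2) ^ 2 / 2
    - 91 / 10000 * x ^ 6 * a ^ 3

lemma D_up (a x : ℝ) (h0 : 0 < a) (hx : 1 ≤ x) (hxa : x * a ≤ 1 / 8) :
    D a x ≤ 547 / 1000 * (x ^ 2 * a) := by
  have hx0 : 0 ≤ x := by linarith
  have h1 : D a x = x ^ 2 * a * (1 / 2 + 1 / 3 * (x * a) + 3 / 10 * (x * a) ^ 2) -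
      (x * a / 2 + 3 / 12 * x ^ 2 * a ^ 2 + x * a ^ 2 / 12) := by
    unfold D; ring
  have h2 : 0 ≤ x * a / 2 + 3 / 12 * x ^ 2 * a ^ 2 + x * a ^ 2 / 12 := by positivity
  have h3 : 1 / 2 + 1 / 3 * (x * a) + 3 / 10 * (x * a) ^ 2 ≤ 547 / 1000 := by
    have : 0 ≤ x * a := by positivity
    nlinarith
  have h4 : 0 ≤ x ^ 2 * a := by positivity
  have := mul_le_mul_of_nonneg_left h3 h4
  linarith

lemma D_lo (a x : ℝ) (h0 : 0 < a) (hx : x = 0 ∨ 1 ≤ x) :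
    x * (x - 1) * a / 2 ≤ D a x ∧ 0 ≤ x * (x - 1) * a / 2 := by
  rcases hx with rfl | hx
  · simp [D]
  have hx0 : 0 ≤ x := by linarith
  have h1 : 0 ≤ x * (x - 1) := mul_nonneg hx0 (by linarith)
  refine ⟨?_, by positivity⟩
  unfold D
  have : 0 ≤ x * (x - 1) * (4 * x + 1) * a ^ 2 / 12 := by positivity
  have : 0 ≤ 3 / 10 * x ^ 4 * a ^ 3 := by positivity
  linarith

lemma P_le (a x : ℝ) (h0 : 0 < a) (hx : x = 0 ∨ 1 ≤ x) (hxa : x * a ≤ 1 / 8) :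
    P a x ≤ Real.exp (-(Real.log 2 * D a x)) := by
  have hL := L_lo
  have hL' := L_hi
  have hL0 : 0 ≤ Real.log 2 := by linarith
  obtain ⟨h1, h2⟩ := D_lo a x h0 hx
  have hD0 : 0 ≤ D a x := h2.trans h1
  have h3 := exp_neg_ge (Real.log 2 * D a x) (by positivity)
  refine le_trans ?_ h3
  have h4 : (x * (x - 1) * a / 2) ^ 2 ≤ (D a x) ^ 2 := by gcongr
  have h5 : (Real.log 2 * D a x) ^ 3 / 6 ≤ 91 / 10000 * x ^ 6 * a ^ 3 := by
    rcases hx with rfl | hx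
    · simp [D]
    have h6 := D_up a x h0 hx hxa
    have h7 : Real.log 2 * D a x ≤ 0.693148 * (547 / 1000 * (x ^ 2 * a)) := by
      apply mul_le_mul hL'.le h6 hD0 (by norm_num)
    have h8 : (Real.log 2 * D a x) ^ 3 ≤ (0.693148 * (547 / 1000 * (x ^ 2 * a))) ^ 3 := by
      gcongr
    have h9 : 0 ≤ x ^ 6 * a ^ 3 := by positivity
    have h10 : (0.693148 * (547 / 1000 * (x ^ 2 * a))) ^ 3 =
      (0.693148 * (547 / 1000)) ^ 3 * (x ^ 6 * a ^ 3) := by ring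
    rw [h10] at h8
    norm_num at h8 ⊢
    nlinarith
  unfold P
  have h11 : (Real.log 2) ^ 2 * (x * (x - 1) * a / 2) ^ 2 / 2 ≤ (Real.log 2 * D a x) ^ 2 / 2 := by
    rw [mul_pow]
    gcongr
  linarith

lemma P_neg (a x : ℝ) (h0 : 0 < a) (hxa : 1 / 8 < x * a) (hx : 67 ≤ x) :
    P a x ≤ 0 := by
  have hL := L_lo
  have hL' := L_hi
  have hL0 : 0 ≤ Real.log 2 := by linarith
  obtain ⟨h1, h2⟩ := D_lo a x h0 (Or.inr (by linarith))
  have hD0 : 0 ≤ D a x := h2.trans h1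
  set s := x ^ 2 * a with hs
  have hs8 : 8.37 ≤ s := by
    have : x ^ 2 * a = x * (x * a) := by ring
    rw [hs, this]
    nlinarith
  have h3 : (x * (x - 1) * a / 2) ^ 2 ≤ (s / 2) ^ 2 := by
    have : x * (x - 1) * a / 2 ≤ s / 2 := by
      rw [hs]
      have : 0 ≤ x * a := by linarith
      nlinarith
    gcongr
  have h4 : (Real.log 2) ^ 2 ≤ 0.693148 ^ 2 := by gcongr
  have h5 : (Real.log 2) ^ 2 * (x * (x - 1) * a / 2) ^ 2 ≤ 0.693148 ^ 2 * (s / 2) ^ 2 := by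
    apply mul_le_mul h4 h3 (by positivity) (by positivity)
  have h6 : x ^ 6 * a ^ 3 = s ^ 3 := by rw [hs]; ring
  have h7 : 8.37 * s ^ 2 ≤ s ^ 3 := by
    have : s ^ 3 = s * s ^ 2 := by ring
    rw [this]
    gcongr
  have h8 : 8.37 ^ 2 ≤ s ^ 2 := by gcongr
  have h9 : 0 ≤ Real.log 2 * D a x := by positivity
  unfold P
  have h10 : 91 / 10000 * x ^ 6 * a ^ 3 = 91 / 10000 * s ^ 3 := by rw [← h6]; ring
  rw [h10]
  norm_num at h5 h7 h8 ⊢
  nlinarith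

/-- The term-wise bound. -/
lemma term_ge (n : ℕ) (a : ℝ) (h0 : 0 < a) (h1 : a ≤ 1 / 8) (h : 1 / 2 < (1 - a) ^ n) (l : ℕ)
    (hl : l * a ≤ 1 / 8) : P a l / 2 ^ l ≤ (1 - l * a) ^ n := by
  have hx : (l : ℝ) = 0 ∨ 1 ≤ (l : ℝ) := by
    rcases Nat.eq_zero_or_pos l with rfl | h
    · simp
    · right; exact_mod_cast h
  have hy0 : 0 ≤ l * a := by positivity
  have hna := na_le n a h0 h1 h
  have hlog := log_up (l * a) hy0 hl
  have hn : (0 : ℝ) ≤ n := Nat.cast_nonneg n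
  have h2 : n * (-Real.log (1 - l * a)) ≤ Real.log 2 * (l + D a l) := by
    calc n * (-Real.log (1 - l * a)) ≤ n * (l * a + (l * a) ^ 2 / 2 + (l * a) ^ 3 / 3
          + 3 / 10 * (l * a) ^ 4) := mul_le_mul_of_nonneg_left hlog hn
      _ = n * a * (l + l ^ 2 * a / 2 + l ^ 3 * a ^ 2 / 3 + 3 / 10 * l ^ 4 * a ^ 3) := by ring
      _ ≤ Real.log 2 * (1 - a / 2 - a ^ 2 / 12 + 5 / 24 * a ^ 3) *
          (l + l ^ 2 * a / 2 + l ^ 3 * a ^ 2 / 3 + 3 / 10 * l ^ 4 * a ^ 3) :=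
        mul_le_mul_of_nonneg_right hna (by positivity)
      _ = Real.log 2 * ((1 - a / 2 - a ^ 2 / 12 + 5 / 24 * a ^ 3) *
          (l + l ^ 2 * a / 2 + l ^ 3 * a ^ 2 / 3 + 3 / 10 * l ^ 4 * a ^ 3)) := by ring
      _ ≤ Real.log 2 * (l + D a l) := by
        apply mul_le_mul_of_nonneg_left (wD a l h0 h1 hx)
        have := L_lo; linarith
  have hpos : 0 < 1 - l * a := by linarith
  have h3 : (1 - l * a) ^ n = Real.exp (-(n * (-Real.log (1 - l * a)))) := by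
    rw [mul_neg, neg_neg, ← Real.log_pow, Real.exp_log (pow_pos hpos n)]
  rw [h3]
  have h4 : Real.exp (-(Real.log 2 * (l + D a l))) ≤
      Real.exp (-(n * (-Real.log (1 - l * a)))) := Real.exp_le_exp.2 (by linarith)
  refine le_trans ?_ h4
  have h5 : Real.exp (-(Real.log 2 * (l + D a l))) =
      Real.exp (-(Real.log 2 * D a l)) / 2 ^ l := by
    rw [show -(Real.log 2 * (l + D a l)) = -(Real.log 2 * D a l) - Real.log 2 * l by ring,
      Real.exp_sub, mul_comm (Real.log 2) (l : ℝ), ← Real.log_pow,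
      Real.exp_log (by positivity)]
  rw [h5]
  have := P_le a l h0 hx hl
  gcongr

lemma P_hasSum (a : ℝ) : HasSum (fun l : ℕ => P a l / 2 ^ l)
    (2 - 2 * Real.log 2 * a + (13 * Real.log 2 ^ 2 - 7 * Real.log 2) * a ^ 2
      - (45 * Real.log 2 + 852306 / 10000) * a ^ 3) := by
  set L := Real.log 2 with hL
  have h0 := hs0.mul_left (1 : ℝ)
  have h1 := hs1.mul_left (L * (a / 2) + L * (a ^ 2 / 12))
  have h2 := hs2.mul_left (-(L * (a / 2)) + 3 * (L * (a ^ 2 / 12)) + L ^ 2 * a ^ 2 / 8)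
  have h3 := hs3.mul_left (-(4 * (L * (a ^ 2 / 12))) - 2 * (L ^ 2 * a ^ 2 / 8))
  have h4 := hs4.mul_left (-(3 / 10 * L * a ^ 3) + L ^ 2 * a ^ 2 / 8)
  have h6 := hs6.mul_left (-(91 / 10000 * a ^ 3))
  have hh := ((((h0.add h1).add h2).add h3).add h4).add h6
  have hf : (fun l : ℕ => P a l / 2 ^ l) = (fun b : ℕ =>
      1 * ((b : ℝ) ^ 0 / 2 ^ b) + (L * (a / 2) + L * (a ^ 2 / 12)) * ((b : ℝ) ^ 1 / 2 ^ b) +
              (-(L * (a / 2)) + 3 * (L * (a ^ 2 / 12)) + L ^ 2 * a ^ 2 / 8) * ((b : ℝ) ^ 2 / 2 ^ b) +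
            (-(4 * (L * (a ^ 2 / 12))) - 2 * (L ^ 2 * a ^ 2 / 8)) * ((b : ℝ) ^ 3 / 2 ^ b) +
          (-(3 / 10 * L * a ^ 3) + L ^ 2 * a ^ 2 / 8) * ((b : ℝ) ^ 4 / 2 ^ b) +
        -(91 / 10000 * a ^ 3) * ((b : ℝ) ^ 6 / 2 ^ b)) := by
    funext l
    unfold P D
    rw [← hL]
    field_simp
    ring
  have hv : 2 - 2 * L * a + (13 * L ^ 2 - 7 * L) * a ^ 2 - (45 * L + 852306 / 10000) * a ^ 3 =
    (1 * 2 + (L * (a / 2) + L * (a ^ 2 / 12)) * 2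
      + (-(L * (a / 2)) + 3 * (L * (a ^ 2 / 12)) + L ^ 2 * a ^ 2 / 8) * 6 +
          (-(4 * (L * (a ^ 2 / 12))) - 2 * (L ^ 2 * a ^ 2 / 8)) * 26 +
        (-(3 / 10 * L * a ^ 3) + L ^ 2 * a ^ 2 / 8) * 150 +
      -(91 / 10000 * a ^ 3) * 9366) := by ring
  rw [hf, hv]
  exact hh

lemma lhs_bound (n : ℕ) (a : ℝ) (ha0 : 0 < a) (ha1 : a ≤ 1 / 560) (h : 1 / 2 < (1 - a) ^ n) :
    (1 + a) ^ n ≤ 2 - 2 * Real.log 2 * a + (Real.log 2 + Real.log 2 ^ 2) * a ^ 2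
      + 5 / 2 * Real.log 2 * a ^ 3 := by
  have hL := L_lo
  have hL' := L_hi
  set L := Real.log 2 with hLdef
  have hL0 : 0 < L := by linarith
  have hn : (0 : ℝ) ≤ n := Nat.cast_nonneg n
  have h1 := na_le n a ha0 (by linarith) h
  have h2 := log1p_up a ha0.le (by linarith)
  have h3 : (n : ℝ) * Real.log (1 + a) ≤ L * (1 - a + a ^ 2 / 2 + 5 / 4 * a ^ 3) := by
    calc (n : ℝ) * Real.log (1 + a) ≤ n * (a - a ^ 2 / 2 + a ^ 3 / 3 + 8 / 7 * a ^ 4) :=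
          mul_le_mul_of_nonneg_left h2 hn
      _ = (n * a) * (1 - a / 2 + a ^ 2 / 3 + 8 / 7 * a ^ 3) := by ring
      _ ≤ (L * (1 - a / 2 - a ^ 2 / 12 + 5 / 24 * a ^ 3)) *
          (1 - a / 2 + a ^ 2 / 3 + 8 / 7 * a ^ 3) := by
        apply mul_le_mul_of_nonneg_right h1
        nlinarith [pow_pos ha0 2, pow_pos ha0 3]
      _ ≤ L * (1 - a + a ^ 2 / 2 + 5 / 4 * a ^ 3) := by
        rw [mul_assoc]
        apply mul_le_mul_of_nonneg_left _ hL0.le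
        have h5 : 1 - a + a ^ 2 / 2 + 5 / 4 * a ^ 3 - (1 - a / 2 - a ^ 2 / 12 + 5 / 24 * a ^ 3) *
          (1 - a / 2 + a ^ 2 / 3 + 8 / 7 * a ^ 3) = a ^ 3 * (1 / 42 + 709 / 1008 * a
            + 13 / 504 * a ^ 2 - 5 / 21 * a ^ 3) := by ring
        have h6 : 0 ≤ 1 / 42 + 709 / 1008 * a + 13 / 504 * a ^ 2 - 5 / 21 * a ^ 3 := by
          have : a ^ 3 ≤ a ^ 2 := by nlinarith [pow_pos ha0 2]
          have : a ^ 2 ≤ a := by nlinarith
          nlinarith [pow_pos ha0 2]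
        have h7 := mul_nonneg (pow_nonneg ha0.le 3) h6
        linarith
  have e1 : (1 + a) ^ n = Real.exp (n * Real.log (1 + a)) := by
    rw [← Real.log_pow, Real.exp_log (by positivity)]
  rw [e1]
  have e2 : Real.exp (n * Real.log (1 + a)) ≤
      Real.exp (L * (1 - a + a ^ 2 / 2 + 5 / 4 * a ^ 3)) := Real.exp_le_exp.2 h3
  refine e2.trans ?_
  set X := L * (a - a ^ 2 / 2 - 5 / 4 * a ^ 3) with hX
  have e3 : L * (1 - a + a ^ 2 / 2 + 5 / 4 * a ^ 3) = L + -X := by rw [hX]; ring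
  rw [e3, Real.exp_add, hLdef, Real.exp_log (by norm_num), ← hLdef]
  have hw : 0 ≤ a - a ^ 2 / 2 - 5 / 4 * a ^ 3 := by
    have : a ^ 2 ≤ a * (1 / 560) := by nlinarith
    have : a ^ 3 ≤ a * (1 / 560) := by nlinarith [pow_pos ha0 2]
    linarith
  have hX0 : 0 ≤ X := mul_nonneg hL0.le hw
  have hXL : X ≤ L * a := by
    rw [hX]
    apply mul_le_mul_of_nonneg_left _ hL0.le
    have := pow_pos ha0 2
    have := pow_pos ha0 3
    linarith
  have hX2 : X ^ 2 ≤ (L * a) ^ 2 := by gcongr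
  have := exp_neg_le X hX0
  calc 2 * Real.exp (-X) ≤ 2 * (1 - X + X ^ 2 / 2) := by linarith
    _ = 2 - 2 * X + X ^ 2 := by ring
    _ ≤ 2 - 2 * X + (L * a) ^ 2 := by linarith
    _ = 2 - 2 * L * a + (L + L ^ 2) * a ^ 2 + 5 / 2 * L * a ^ 3 := by rw [hX]; ring

lemma rhs_bound (m n : ℕ) (a : ℝ) (ha0 : 0 < a) (ha1 : a ≤ 1 / 560) (ham : (m : ℝ) * a = 1)
    (h : 1 / 2 < (1 - a) ^ n) :
    2 - 2 * Real.log 2 * a + (13 * Real.log 2 ^ 2 - 7 * Real.log 2) * a ^ 2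
      - (45 * Real.log 2 + 852306 / 10000) * a ^ 3 ≤ ∑ l ∈ range m, (1 - l * a) ^ n := by
  have hs := P_hasSum a
  have ht : HasSum (fun l : ℕ => if l < m then (1 - l * a) ^ n else 0)
      (∑ l ∈ range m, (1 - l * a) ^ n) := by
    have h0 : ∑ l ∈ range m, (1 - l * a) ^ n =
        ∑ l ∈ range m, (if l < m then (1 - l * a) ^ n else 0) := by
      apply sum_congr rfl
      intro l hl
      simp only [Finset.mem_range] at hl
      simp [hl]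
    rw [h0]
    apply hasSum_sum_of_ne_finset_zero
    intro l hl
    simp only [Finset.mem_range] at hl
    simp [hl]
  refine hasSum_le (fun l => ?_) hs ht
  by_cases hl : (l : ℝ) * a ≤ 1 / 8
  · have hlm : l < m := by
      by_contra hcon
      push Not at hcon
      have : (m : ℝ) ≤ l := by exact_mod_cast hcon
      nlinarith
    rw [if_pos hlm]
    exact term_ge n a ha0 (by linarith) h l hl
  · push Not at hl
    have h67 : (67 : ℝ) ≤ l := by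
      by_contra hcon
      push Not at hcon
      nlinarith
    have hneg := P_neg a l ha0 hl h67
    have : P a l / 2 ^ l ≤ 0 := div_nonpos_of_nonpos_of_nonneg hneg (by positivity)
    refine this.trans ?_
    split_ifs with hlm
    · apply pow_nonneg
      have : (l : ℝ) ≤ m := by exact_mod_cast hlm.le
      nlinarith
    · exact le_rfl

lemma fin_bound (L a : ℝ) (hL : 0.693147 < L) (hL' : L < 0.693148) (ha0 : 0 < a)
    (ha1 : a ≤ 1 / 560) :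
    2 - 2 * L * a + (L + L ^ 2) * a ^ 2 + 5 / 2 * L * a ^ 3 <
    2 - 2 * L * a + (13 * L ^ 2 - 7 * L) * a ^ 2 - (45 * L + 852306 / 10000) * a ^ 3 := by
  have h6 : 0.2202 < 12 * L ^ 2 - 8 * L := by nlinarith
  have h7 : (95 / 2 * L + 852306 / 10000) * a < 0.2202 := by
    have h71 : (95 / 2 * L + 852306 / 10000) ≤ 118.17 := by linarith
    have h72 : (95 / 2 * L + 852306 / 10000) * a ≤ 118.17 * (1 / 560) :=
      mul_le_mul h71 ha1 ha0.le (by norm_num)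
    refine lt_of_le_of_lt h72 (by norm_num)
  have h8 : 0 < a ^ 2 * (12 * L ^ 2 - 8 * L - (95 / 2 * L + 852306 / 10000) * a) :=
    mul_pos (pow_pos ha0 2) (by linarith)
  have h9 : 2 - 2 * L * a + (13 * L ^ 2 - 7 * L) * a ^ 2 - (45 * L + 852306 / 10000) * a ^ 3 -
    (2 - 2 * L * a + (L + L ^ 2) * a ^ 2 + 5 / 2 * L * a ^ 3) =
      a ^ 2 * (12 * L ^ 2 - 8 * L - (95 / 2 * L + 852306 / 10000) * a) := by ring
  linarith

/-- Analytic part of the main inequality. -/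
theorem ineq (m n : ℕ) (hm : 560 ≤ m) (h : 1 / 2 < (1 - 1 / (m : ℝ)) ^ n) :
    (1 + 1 / (m : ℝ)) ^ n < ∑ l ∈ range m, (1 - l * (1 / (m : ℝ))) ^ n := by
  have hmR : (560 : ℝ) ≤ m := by exact_mod_cast hm
  have hm0 : (0 : ℝ) < m := by linarith
  have ha0 : 0 < 1 / (m : ℝ) := by positivity
  have ha1 : 1 / (m : ℝ) ≤ 1 / 560 := one_div_le_one_div_of_le (by norm_num) hmR
  have ham : (m : ℝ) * (1 / (m : ℝ)) = 1 := by field_simp
  exact lt_of_le_of_lt (lhs_bound n _ ha0 ha1 h)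
    (lt_of_lt_of_le (fin_bound _ _ L_lo L_hi ha0 ha1) (rhs_bound m n _ ha0 ha1 ham h))

end Pool.Agent.TH845.EP
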