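import Mathlib
import Pool.Agent.TH845.ErdosPow2

set_option autoImplicit false

namespace Pool.Agent.TH845.EP

open Finset

/-- sum of the top `k` terms -/
def topsum (m N : ℕ) : ℕ → ℕ
  | 0 => 0
  | k + 1 => (m - k) ^ N + topsum m N k

/-- the largest exponent to be checked -/
def Nm (m : ℕ) : ℕ := (6931472 * (2 * m - 1)) / 20000000

/-- the finite check -/
def chk (m : ℕ) : Bool :=
  let N := Nm m
  Nat.ble (2 * (m - 1) ^ (N + 1)) (m ^ (N + 1)) &&
  (Nat.ble ((m + 1) ^ N + 1) (topsum m N 30) && Nat.ble 1 N)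

/-- all checks -/
def chkAll : ℕ → Bool
  | 0 => true
  | k + 1 => chk (k + 3) && chkAll k

lemma chkAll_true : chkAll 557 = true := by decide +kernel

lemma chk_of (k : ℕ) (h : chkAll k = true) (m : ℕ) (h3 : 3 ≤ m) (hm : m < k + 3) :
    chk m = true := by
  induction k with
  | zero => omega
  | succ k ih =>
    simp only [chkAll, Bool.and_eq_true] at h
    rcases Nat.lt_or_ge m (k + 3) with hlt | hge
    · exact ih h.2 hlt
    · have : m = k + 3 := by omega
      rw [this]; exact h.1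

lemma topsum_eq (m N k : ℕ) : topsum m N k = ∑ l ∈ range k, (m - l) ^ N := by
  induction k with
  | zero => rfl
  | succ k ih => rw [topsum, ih, sum_range_succ, add_comm]

lemma sum_Icc_eq (m N : ℕ) : ∑ i ∈ Icc 1 m, i ^ N = ∑ l ∈ range m, (m - l) ^ N := by
  have h1 : ∀ m : ℕ, ∑ i ∈ Icc 1 m, i ^ N = ∑ j ∈ range m, (j + 1) ^ N := by
    intro m
    induction m with
    | zero => simp
    | succ m ih => rw [sum_Icc_succ_top (by omega), ih, sum_range_succ]
  rw [h1, ← sum_range_reflect (fun j => (j + 1) ^ N) m]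
  apply sum_congr rfl
  intro l hl
  rw [mem_range] at hl
  congr 1
  omega

lemma topsum_le (m N k : ℕ) (hN : 1 ≤ N) : topsum m N k ≤ ∑ i ∈ Icc 1 m, i ^ N := by
  rw [topsum_eq, sum_Icc_eq]
  rcases Nat.le_total k m with h | h
  · exact sum_le_sum_of_subset (range_subset_range.2 h)
  · obtain ⟨d, rfl⟩ := Nat.exists_eq_add_of_le h
    rw [sum_range_add]
    have : ∑ x ∈ range d, (m - (m + x)) ^ N = 0 := by
      apply sum_eq_zero
      intro x _
      rw [Nat.sub_eq_zero_of_le (by omega)]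
      exact zero_pow (by omega)
    omega

/-- comparison of exponents -/
lemma mono (m n N : ℕ) (h : n ≤ N) (hN : (m + 1) ^ N < ∑ i ∈ Icc 1 m, i ^ N) :
    (m + 1) ^ n < ∑ i ∈ Icc 1 m, i ^ n := by
  obtain ⟨d, rfl⟩ := Nat.exists_eq_add_of_le h
  have h1 : ∑ i ∈ Icc 1 m, i ^ (n + d) ≤ (m + 1) ^ d * ∑ i ∈ Icc 1 m, i ^ n := by
    rw [mul_sum]
    apply sum_le_sum
    intro i hi
    rw [mem_Icc] at hi
    rw [pow_add, mul_comm]
    exact Nat.mul_le_mul_right _ (Nat.pow_le_pow_left (by omega) d)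
  have h2 : (m + 1) ^ d * (m + 1) ^ n < (m + 1) ^ d * ∑ i ∈ Icc 1 m, i ^ n := by
    rw [← pow_add, add_comm d n]
    exact lt_of_lt_of_le hN h1
  exact lt_of_mul_lt_mul_left h2 (Nat.zero_le _)

/-- second inequality, small `m` -/
lemma small (m n : ℕ) (h3 : 3 ≤ m) (hm : m < 560) (h : m ^ n < 2 * (m - 1) ^ n) :
    (m + 1) ^ n < ∑ i ∈ Icc 1 m, i ^ n := by
  have hc := chk_of 557 chkAll_true m h3 hm
  unfold chk at hc
  simp only [Bool.and_eq_true, Nat.ble_eq] at hc
  obtain ⟨hc1, hc2, hc3⟩ := hc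
  have hn : n ≤ Nm m := by
    by_contra hcon
    push Not at hcon
    obtain ⟨d, hd⟩ := Nat.exists_eq_add_of_le (Nat.succ_le_of_lt hcon)
    have e1 : (m - 1) ^ n = (m - 1) ^ (Nm m + 1) * (m - 1) ^ d := by
      rw [← pow_add]; congr 1
    have e2 : m ^ n = m ^ (Nm m + 1) * m ^ d := by
      rw [← pow_add]; congr 1
    rw [e1, e2] at h
    have e3 : (m - 1) ^ d ≤ m ^ d := Nat.pow_le_pow_left (by omega) d
    have e4 : 2 * ((m - 1) ^ (Nm m + 1) * (m - 1) ^ d) ≤ m ^ (Nm m + 1) * m ^ d := by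
      rw [← mul_assoc]
      exact Nat.mul_le_mul hc1 e3
    omega
  exact mono m n (Nm m) hn (lt_of_lt_of_le hc2 (topsum_le m _ 30 hc3))

/-- second inequality -/
theorem second (m n : ℕ) (hn : 1 ≤ n) (hm : 2 ≤ m) (h : (1 - 1 / (m : ℝ)) ^ n > 1 / 2) :
    (m + 1) ^ n < ∑ i ∈ Icc 1 m, i ^ n := by
  have hm0 : (0 : ℝ) < m := by positivity
  rcases Nat.lt_or_ge m 560 with hlt | hge
  · rcases Nat.lt_or_ge m 3 with h2 | h3
    · have : m = 2 := by omega
      subst this
      exfalso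
      norm_num at h
      have h4 : (1 / 2 : ℝ) ^ n ≤ (1 / 2 : ℝ) ^ 1 :=
        pow_le_pow_of_le_one (by norm_num) (by norm_num) hn
      norm_num at h4
      linarith
    · apply small m n h3 hlt
      have h5 : (m : ℝ) ^ n < 2 * ((m : ℝ) - 1) ^ n := by
        have h6 : (1 - 1 / (m : ℝ)) ^ n = ((m : ℝ) - 1) ^ n / (m : ℝ) ^ n := by
          rw [← div_pow]; congr 1; field_simp
        rw [h6, gt_iff_lt, lt_div_iff₀ (by positivity)] at h
        linarith
      have h7 : ((m - 1 : ℕ) : ℝ) = (m : ℝ) - 1 := by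
        rw [Nat.cast_sub (by omega)]; simp
      rw [← h7] at h5
      exact_mod_cast h5
  · have h1 := ineq m n hge h
    have h2 : ((∑ i ∈ Icc 1 m, i ^ n : ℕ) : ℝ) =
        (m : ℝ) ^ n * ∑ l ∈ range m, (1 - l * (1 / (m : ℝ))) ^ n := by
      rw [sum_Icc_eq, mul_sum]
      push_cast
      apply sum_congr rfl
      intro l hl
      rw [mem_range] at hl
      rw [Nat.cast_sub hl.le, ← mul_pow]
      congr 1
      field_simp
    have h3 : ((m : ℝ) + 1) ^ n = (m : ℝ) ^ n * (1 + 1 / (m : ℝ)) ^ n := by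
      rw [← mul_pow]; congr 1; field_simp
    have h4 : ((m : ℝ) + 1) ^ n < ((∑ i ∈ Icc 1 m, i ^ n : ℕ) : ℝ) := by
      rw [h2, h3]
      exact mul_lt_mul_of_pos_left h1 (by positivity)
    exact_mod_cast h4

/-- first inequality in the form: if `2 (k-1)^n < k^n` then `1^n + ... + (k-1)^n < k^n`. -/
theorem first (n : ℕ) (k : ℕ) (h : 2 * k ^ n < (k + 1) ^ n) :
    ∑ i ∈ Icc 1 k, i ^ n < (k + 1) ^ n := by
  -- ratios are smaller for smaller `i`
  have hstep : ∀ j : ℕ, j ≤ k → 2 * j ^ n ≤ (j + 1) ^ n := by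
    intro j hj
    have h1 : j ^ n * (k + 1) ^ n ≤ (j + 1) ^ n * k ^ n := by
      rw [← mul_pow, ← mul_pow]
      apply Nat.pow_le_pow_left
      nlinarith
    rcases Nat.eq_zero_or_pos k with rfl | hk
    · have : j = 0 := by omega
      subst this
      exact h.le
    · have hk0 : 0 < k ^ n := Nat.pow_pos hk
      have h2 : j ^ n * (2 * k ^ n) ≤ (j + 1) ^ n * k ^ n :=
        le_trans (Nat.mul_le_mul_left _ h.le) h1
      have h3 : (2 * j ^ n) * k ^ n ≤ (j + 1) ^ n * k ^ n := by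
        calc (2 * j ^ n) * k ^ n = j ^ n * (2 * k ^ n) := by ring
          _ ≤ _ := h2
      exact Nat.le_of_mul_le_mul_right h3 hk0
  have hsum : ∀ j : ℕ, j ≤ k → ∑ i ∈ Icc 1 j, i ^ n ≤ 2 * j ^ n := by
    intro j
    induction j with
    | zero => intro _; simp
    | succ j ih =>
      intro hj
      rw [sum_Icc_succ_top (by omega)]
      have h1 := ih (by omega)
      have h2 := hstep j (by omega)
      omega
  exact lt_of_le_of_lt (hsum k le_rfl) h

end Pool.Agent.TH845.EP
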